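import Pool.Agent.H49.SZ.Hcert

set_option autoImplicit false

/-!
# Szego's estimate for root transforms fails for every `p ≥ 9`
-/

namespace Pool.Agent.Results.MP_283627_an.SzegoNine

open Set Metric

/-- The class `S`: `f` is analytic and injective on the unit disc, `f 0 = 0`, `f' 0 = 1`. -/
def ClassS (f : ℂ → ℂ) : Prop :=
  DifferentiableOn ℂ f (ball 0 1) ∧ InjOn f (ball 0 1) ∧ f 0 = 0 ∧ deriv f 0 = 1

/-- `F` is the `p`-th root transform `z (f (z^p) / z^p)^(1/p)` of `f` on the unit disc: `F z = z * h z`, where `h` is the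
analytic branch of `(f (z^p) / z^p)^(1/p)` with `h 0 = 1`. -/
def IsRootTransform (p : ℕ) (f F : ℂ → ℂ) : Prop :=
  ∃ h : ℂ → ℂ, DifferentiableOn ℂ h (ball 0 1) ∧ h 0 = 1 ∧
    (∀ z ∈ ball (0 : ℂ) 1, z ^ p * h z ^ p = f (z ^ p)) ∧ ∀ z ∈ ball (0 : ℂ) 1, F z = z * h z

/-- The Taylor coefficient of `z^(p n + 1)` of `F` at `0`. -/
noncomputable def coef (p : ℕ) (F : ℂ → ℂ) (n : ℕ) : ℂ :=
  iteratedDeriv (p * n + 1) F 0 / ((p * n + 1).factorial : ℂ)

open Pool.Agent.H49.SZ in
theorem coef_eq {L : ℂ → ℂ} (hL : UU L) {p : ℕ} (hp : 2 ≤ p) (n : ℕ) :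
    coef p (fun z => z * Complex.exp ((L (z ^ p) - L 0) / p)) n = cc (1 / p : ℝ) L n := by
  have hp0 : p ≠ 0 := by omega
  have hd : DifferentiableOn ℂ (fun z => Complex.exp (((1 / p : ℝ) : ℂ) * (L z - L 0)))
      (ball 0 1) := ((hL.diff.sub_const _).const_mul _).cexp
  obtain ⟨a, ha⟩ : ∃ a : ℕ → ℂ, a = fun k => if k % p = 1 then cc (1 / p : ℝ) L (k / p) else 0 :=
    ⟨_, rfl⟩
  have hmod : ∀ m : ℕ, (p * m + 1) % p = 1 := by
    intro m
    rw [Nat.mul_add_mod, Nat.mod_eq_of_lt (by omega)]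
  have hdiv : ∀ m : ℕ, (p * m + 1) / p = m := by
    intro m
    rw [Nat.mul_add_div (by omega), Nat.div_eq_of_lt (by omega), add_zero]
  have hinj : Function.Injective fun m : ℕ => p * m + 1 := by
    intro m m' h
    have h' : p * m = p * m' := by simpa using h
    exact Nat.eq_of_mul_eq_mul_left (by omega) h'
  have key : tc (fun z => z * Complex.exp ((L (z ^ p) - L 0) / p)) (p * n + 1) =
      a (p * n + 1) := by
    apply tc_unique one_pos
    intro z hz
    have hzp : z ^ p ∈ ball (0 : ℂ) 1 := pow_mem hp0 hz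
    have h1 := (tc_hasSum hd hzp).mul_left z
    rw [← hinj.hasSum_iff]
    · have e1 : ((fun k => a k * z ^ k) ∘ fun m => p * m + 1) = fun m => z *
          (tc (fun z => Complex.exp (((1 / p : ℝ) : ℂ) * (L z - L 0))) m * (z ^ p) ^ m) := by
        funext m
        simp only [Function.comp_apply, ha, hmod, hdiv, if_true]
        rw [cc, pow_succ, pow_mul]
        ring
      have e2 : z * Complex.exp ((L (z ^ p) - L 0) / p) =
          z * Complex.exp (((1 / p : ℝ) : ℂ) * (L (z ^ p) - L 0)) := by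
        congr 2
        push_cast
        ring
      rw [e1, e2]
      exact h1
    · intro k hk
      have : ¬ k % p = 1 := by
        intro h
        apply hk
        refine ⟨k / p, ?_⟩
        change p * (k / p) + 1 = k
        have := Nat.div_add_mod k p
        omega
      simp only [ha, if_neg this, zero_mul]
  have e3 : coef p (fun z => z * Complex.exp ((L (z ^ p) - L 0) / p)) n =
      tc (fun z => z * Complex.exp ((L (z ^ p) - L 0) / p)) (p * n + 1) := rfl
  rw [e3, key, ha]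
  simp only [hmod, hdiv, if_true]

open Pool.Agent.H49.SZ in
/-- For every integer `p ≥ 9` there is a bounded function `f` of class `S` whose `p`-th root transform `F` satisfies
`sup_n n^(1 - 2/p) |c_n| = ∞`. -/
theorem result : ∀ p : ℕ, 9 ≤ p → ∃ f F : ℂ → ℂ,
    ClassS f ∧ (∃ M : ℝ, ∀ z ∈ ball (0 : ℂ) 1, ‖f z‖ ≤ M) ∧ IsRootTransform p f F ∧
      ∀ C : ℝ, ∃ n : ℕ, 1 ≤ n ∧ C < (n : ℝ) ^ (1 - 2 / (p : ℝ)) * ‖coef p F n‖ := by
  intro p hp
  have hpr : (9 : ℝ) ≤ p := by exact_mod_cast hp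
  have hp0 : p ≠ 0 := by omega
  have hpc : (p : ℂ) ≠ 0 := by exact_mod_cast hp0
  obtain ⟨L, hL, hS⟩ := mfin UU_PL hcert (lam := 1 / p) (by positivity)
    (by apply one_div_le_one_div_of_le (by norm_num) hpr)
  have h0 : (0 : ℂ) ∈ ball (0 : ℂ) 1 := mem_ball_self one_pos
  have hfn : ∀ z : ℂ, z * Complex.exp (L z - L 0) = Complex.exp (-L 0) * fn L z := by
    intro z
    rw [fn, Complex.exp_sub, Complex.exp_neg]
    have := Complex.exp_ne_zero (L 0)
    field_simp
  refine ⟨fun z => z * Complex.exp (L z - L 0),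
    fun z => z * Complex.exp ((L (z ^ p) - L 0) / p), ⟨?_, ?_, ?_, ?_⟩, ?_, ?_, ?_⟩
  · exact differentiableOn_id.mul (hL.diff.sub_const _).cexp
  · intro z hz w hw h
    apply hL.inj hz hw
    simp only [hfn] at h
    exact mul_left_cancel₀ (Complex.exp_ne_zero _) h
  · simp
  · have h1 : HasDerivAt (fun z => z * Complex.exp (L z - L 0))
        (1 * Complex.exp (L 0 - L 0) + 0 * (Complex.exp (L 0 - L 0) * deriv L 0)) 0 :=
      (hasDerivAt_id (0 : ℂ)).mul ((hL.diffAt h0).hasDerivAt.sub_const (L 0)).cexp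
    rw [h1.deriv]
    simp
  · refine ⟨Real.exp (-(L 0).re), fun z hz => ?_⟩
    change ‖z * Complex.exp (L z - L 0)‖ ≤ _
    rw [hfn, norm_mul, Complex.norm_exp, Complex.neg_re]
    have h1 := hL.norm_fn_le hz
    have h2 := mem_ball_zero_iff.1 hz
    have h3 := Real.exp_pos (-(L 0).re)
    nlinarith
  · refine ⟨fun z => Complex.exp ((L (z ^ p) - L 0) / p), ?_, ?_, ?_, fun z _ => rfl⟩
    · exact (((hL.diff.comp (differentiableOn_id.pow p) fun z hz => pow_mem hp0 hz).sub_const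
        _).div_const _).cexp
    · simp [zero_pow hp0]
    · intro z _
      change z ^ p * Complex.exp ((L (z ^ p) - L 0) / p) ^ p =
        z ^ p * Complex.exp (L (z ^ p) - L 0)
      rw [← Complex.exp_nat_mul, mul_div_cancel₀ _ hpc]
  · intro C
    by_contra hcon
    push Not at hcon
    apply hS
    refine ⟨C, fun n hn => ?_⟩
    have h1 := hcon n hn
    rw [coef_eq hL (by omega)] at h1
    have hn0 : (0 : ℝ) < n := by exact_mod_cast hn
    have e1 : (n : ℝ) ^ (2 * (1 / (p : ℝ)) - 1) * (n : ℝ) ^ (1 - 2 / (p : ℝ)) = 1 := by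
      rw [← Real.rpow_add hn0]
      have : 2 * (1 / (p : ℝ)) - 1 + (1 - 2 / (p : ℝ)) = 0 := by ring
      rw [this, Real.rpow_zero]
    calc ‖cc (1 / p : ℝ) L n‖ = (n : ℝ) ^ (2 * (1 / (p : ℝ)) - 1) *
          ((n : ℝ) ^ (1 - 2 / (p : ℝ)) * ‖cc (1 / p : ℝ) L n‖) := by
          rw [← mul_assoc, e1, one_mul]
      _ ≤ (n : ℝ) ^ (2 * (1 / (p : ℝ)) - 1) * C :=
          mul_le_mul_of_nonneg_left h1 (by positivity)
      _ = _ := mul_comm _ _

end Pool.Agent.Results.MP_283627_an.SzegoNine
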